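import Pool.Agent.P8H41.PK.Stm
import Pool.Agent.H818R2.Sph

/-!
# Project PK: codes in a cap of radius less than a right angle
-/

set_option autoImplicit false

open Filter Topology MeasureTheory ProbabilityTheory
open scoped InnerProductSpace
open Pool.Agent.H818R2 Pool.Agent.P8H41.PK

namespace Pool.Agent.P8H61.PK

theorem band_ineq {c q η h a t u s : ℝ} (hc1 : c < 1) (hq : 0 < q) (hη0 : 0 < η)
    (hηc : η < c) (hh : 0 < h) (hsmall : c * (2 * h + h ^ 2) + η ≤ q ^ 2 * (1 - c) / 2)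
    (ha : q ≤ a) (ha1 : a ≤ 1) (hat : a ≤ t) (htb : t < a + h) (hau : a ≤ u)
    (hub : u < a + h) (hs : s ≤ c) :
    s - t * u ≤ (c - η) * √((1 - t ^ 2) * (1 - u ^ 2)) := by
  have hc0 : 0 < c := hη0.trans hηc
  have ha0 : 0 < a := hq.trans_le ha
  have hcη : 0 < c - η := by linarith
  have hnum : s - t * u ≤ c - a ^ 2 := by nlinarith
  by_cases h0 : c - a ^ 2 ≤ 0
  · have h1 : 0 ≤ (c - η) * √((1 - t ^ 2) * (1 - u ^ 2)) := by positivity
    linarith
  · push Not at h0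
    have haq : 0 ≤ (1 - c) * (a ^ 2 - q ^ 2) := by
      apply mul_nonneg (by linarith)
      nlinarith
    have hch : 0 ≤ c * h * (1 - a) := by
      apply mul_nonneg (by positivity)
      linarith
    have hηa : 0 ≤ η * (a + h) ^ 2 := by positivity
    have hq2 : 0 ≤ q ^ 2 * (1 - c) := by
      apply mul_nonneg (by positivity)
      linarith
    have h1 : c - a ^ 2 ≤ (c - η) * (1 - (a + h) ^ 2) := by nlinarith
    have h2 : 0 < 1 - (a + h) ^ 2 := by
      by_contra hcon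
      push Not at hcon
      have : (c - η) * (1 - (a + h) ^ 2) ≤ 0 := mul_nonpos_of_nonneg_of_nonpos hcη.le hcon
      linarith
    have ht : 1 - (a + h) ^ 2 ≤ 1 - t ^ 2 := by nlinarith
    have hu : 1 - (a + h) ^ 2 ≤ 1 - u ^ 2 := by nlinarith
    have h3 : 1 - (a + h) ^ 2 ≤ √((1 - t ^ 2) * (1 - u ^ 2)) := by
      rw [Real.le_sqrt' h2, sq]
      exact mul_le_mul ht hu h2.le (h2.le.trans ht)
    calc s - t * u ≤ c - a ^ 2 := hnum
      _ ≤ (c - η) * (1 - (a + h) ^ 2) := h1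
      _ ≤ (c - η) * √((1 - t ^ 2) * (1 - u ^ 2)) := mul_le_mul_of_nonneg_left h3 hcη.le

theorem inner_w {n : ℕ} {e x y : E n} (he : ‖e‖ = 1) :
    ⟪x - ⟪x, e⟫_ℝ • e, y - ⟪y, e⟫_ℝ • e⟫_ℝ = ⟪x, y⟫_ℝ - ⟪x, e⟫_ℝ * ⟪y, e⟫_ℝ := by
  have hee : ⟪e, e⟫_ℝ = 1 := by rw [real_inner_self_eq_norm_sq, he]; norm_num
  rw [inner_sub_left, inner_sub_right, inner_sub_right, real_inner_smul_left, real_inner_smul_left,
    real_inner_smul_right, real_inner_smul_right, hee, real_inner_comm y e]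
  ring

theorem norm_w {n : ℕ} {e x : E n} (he : ‖e‖ = 1) (hx : ‖x‖ = 1) :
    ‖x - ⟪x, e⟫_ℝ • e‖ = √(1 - ⟪x, e⟫_ℝ ^ 2) := by
  have h := inner_w (x := x) (y := x) he
  rw [real_inner_self_eq_norm_sq, real_inner_self_eq_norm_sq, hx] at h
  have h1 : 1 - ⟪x, e⟫_ℝ ^ 2 = ‖x - ⟪x, e⟫_ℝ • e‖ ^ 2 := by rw [h]; ring
  rw [h1, Real.sqrt_sq (norm_nonneg _)]

/-- a unit vector different from the unit vector `e` has inner product less than one with `e` -/
theorem inner_lt {n : ℕ} {e x : E n} (he : ‖e‖ = 1) (hx : ‖x‖ = 1) (hne : x ≠ e) :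
    ⟪x, e⟫_ℝ < 1 := by
  exact (inner_lt_one_iff_real_of_norm_eq_one hx he).2 hne

/-- The points in one band. -/
theorem band_card {n : ℕ} (hn : 1 ≤ n) {c q η h a θ θ' : ℝ} (hcθ : Real.cos θ = c)
    (hc1 : c < 1) (hq : 0 < q) (hη0 : 0 < η) (hηc : η < c) (hh : 0 < h)
    (hsmall : c * (2 * h + h ^ 2) + η ≤ q ^ 2 * (1 - c) / 2) (ha : q ≤ a)
    (hθ' : Real.cos θ' = c - η) (hs' : 0 < Real.sin (θ' / 2)) {Q : Finset (E n)} {e : E n}
    (hQ : IsSphCode n θ Q) (he : ‖e‖ = 1) (hband : ∀ x ∈ Q, x ≠ e ∧ a ≤ ⟪x, e⟫_ℝ ∧ ⟪x, e⟫_ℝ < a + h) :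
    Q.card ≤ sphMax n θ' := by
  classical
  have : NeZero n := ⟨by omega⟩
  set w : E n → E n := fun x => x - ⟪x, e⟫_ℝ • e with hw
  set ψ : E n → E n := fun x => ‖w x‖⁻¹ • w x with hψ
  have hpos : ∀ x ∈ Q, 0 < ‖w x‖ := by
    intro x hx
    obtain ⟨h1, h2, h3⟩ := hband x hx
    have h4 := inner_lt he (hQ.1 x hx) h1
    have h5 : ‖w x‖ = √(1 - ⟪x, e⟫_ℝ ^ 2) := norm_w he (hQ.1 x hx)
    rw [h5]
    apply Real.sqrt_pos.2
    have h6 : 0 < ⟪x, e⟫_ℝ := hq.trans_le (ha.trans h2)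
    nlinarith
  have hnorm : ∀ x ∈ Q, ‖ψ x‖ = 1 := by
    intro x hx
    have h1 := hpos x hx
    rw [hψ]
    simp only []
    rw [norm_smul, norm_inv, norm_norm, inv_mul_cancel₀ h1.ne']
  have hinner : ∀ x ∈ Q, ∀ y ∈ Q, x ≠ y → ⟪ψ x, ψ y⟫_ℝ ≤ c - η := by
    intro x hx y hy hxy
    have hx1 := hpos x hx
    have hy1 := hpos y hy
    obtain ⟨hx2, hx3, hx4⟩ := hband x hx
    obtain ⟨hy2, hy3, hy4⟩ := hband y hy
    have hx5 := inner_lt he (hQ.1 x hx) hx2
    have hy5 := inner_lt he (hQ.1 y hy) hy2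
    have hx6 : ‖w x‖ = √(1 - ⟪x, e⟫_ℝ ^ 2) := norm_w he (hQ.1 x hx)
    have hy6 : ‖w y‖ = √(1 - ⟪y, e⟫_ℝ ^ 2) := norm_w he (hQ.1 y hy)
    have hxp : 0 < ⟪x, e⟫_ℝ := hq.trans_le (ha.trans hx3)
    have hx7 : 0 ≤ 1 - ⟪x, e⟫_ℝ ^ 2 := by nlinarith
    have h1 : ⟪w x, w y⟫_ℝ = ⟪x, y⟫_ℝ - ⟪x, e⟫_ℝ * ⟪y, e⟫_ℝ := inner_w he
    have hs : ⟪x, y⟫_ℝ ≤ c := hcθ ▸ hQ.2 x hx y hy hxy
    have h2 : ⟪w x, w y⟫_ℝ ≤ (c - η) * (‖w x‖ * ‖w y‖) := by
      rw [h1, hx6, hy6, ← Real.sqrt_mul hx7]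
      exact band_ineq hc1 hq hη0 hηc hh hsmall ha (hx3.trans hx5.le) hx3 hx4 hy3 hy4 hs
    have h3 : ⟪ψ x, ψ y⟫_ℝ = ⟪w x, w y⟫_ℝ / (‖w x‖ * ‖w y‖) := by
      rw [hψ]
      simp only []
      rw [real_inner_smul_left, real_inner_smul_right]
      field_simp
    rw [h3, div_le_iff₀ (mul_pos hx1 hy1)]
    exact h2
  have hinj : Set.InjOn ψ Q := by
    intro x hx y hy hxy
    by_contra hne
    have h1 := hinner x hx y hy hne
    rw [hxy, real_inner_self_eq_norm_sq, hnorm y hy] at h1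
    linarith
  rw [← Finset.card_image_of_injOn hinj]
  refine le_sphMax hs' ⟨?_, ?_⟩
  · intro z hz
    obtain ⟨x, hx, rfl⟩ := Finset.mem_image.1 hz
    exact hnorm x hx
  · intro z hz z' hz' hne
    obtain ⟨x, hx, rfl⟩ := Finset.mem_image.1 hz
    obtain ⟨y, hy, rfl⟩ := Finset.mem_image.1 hz'
    rw [hθ']
    exact hinner x hx y hy fun h => hne (by rw [h])

theorem band : S_BAND := by
  classical
  intro θ q hθ0 hθ hq
  set c := Real.cos θ with hc
  have hc0 : 0 < c := Real.cos_pos_of_mem_Ioo ⟨by linarith, hθ⟩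
  have hc1 : c < 1 := by
    have := Real.cos_lt_cos_of_nonneg_of_le_pi_div_two le_rfl hθ.le hθ0
    rwa [Real.cos_zero] at this
  set κ := q ^ 2 * (1 - c) / 2 with hκ
  have hκ0 : 0 < κ := by
    have : 0 < 1 - c := by linarith
    positivity
  set η := min (κ / 2) (c / 2) with hη
  have hη0 : 0 < η := lt_min (by positivity) (by positivity)
  have hηκ : η ≤ κ / 2 := min_le_left _ _
  have hηc : η < c := (min_le_right _ _).trans_lt (by linarith)
  set h := min (κ / 6) 1 with hhdef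
  have hh : 0 < h := lt_min (by positivity) one_pos
  have hh1 : h ≤ 1 := min_le_right _ _
  have hh2 : h ≤ κ / 6 := min_le_left _ _
  have hsmall : c * (2 * h + h ^ 2) + η ≤ κ := by
    have h1 : h ^ 2 ≤ h := by nlinarith
    have h2 : c * (2 * h + h ^ 2) ≤ 1 * (3 * h) := by
      apply mul_le_mul hc1.le (by linarith) (by positivity) (by norm_num)
    linarith
  set θ' := Real.arccos (c - η) with hθ'
  have hcosθ' : Real.cos θ' = c - η := Real.cos_arccos (by linarith) (by linarith)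
  have hθθ' : θ < θ' := by
    have h1 : θ = Real.arccos c := by
      rw [hc, Real.arccos_cos hθ0.le (by linarith [Real.pi_pos])]
    rw [h1, hθ']
    exact Real.strictAntiOn_arccos ⟨by linarith, by linarith⟩ ⟨by linarith, hc1.le⟩ (by linarith)
  have hθ'2 : θ' < Real.pi / 2 := by
    rw [hθ', Real.arccos_lt_pi_div_two]
    linarith
  have hs' : 0 < Real.sin (θ' / 2) := by
    apply Real.sin_pos_of_pos_of_lt_pi
    · linarith
    · linarith [Real.pi_pos]
  set K := ⌈1 / h⌉₊ with hK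
  refine ⟨θ', K + 2, hθθ', hθ'2, fun n P e hn hP he hcap => ?_⟩
  have : NeZero n := ⟨by omega⟩
  set f : E n → ℕ := fun x => if x = e then 0 else ⌊(⟪x, e⟫_ℝ - q) / h⌋₊ + 1 with hf
  have hmaps : ∀ x ∈ P, f x ∈ Finset.range (K + 2) := by
    intro x hx
    rw [Finset.mem_range, hf]
    simp only []
    split_ifs with hxe
    · omega
    · have h1 : ⟪x, e⟫_ℝ < 1 := inner_lt he (hP.1 x hx) hxe
      have h2 : ⌊(⟪x, e⟫_ℝ - q) / h⌋₊ ≤ K := by
        have h3 : (⟪x, e⟫_ℝ - q) / h ≤ K := by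
          refine le_trans ?_ (Nat.le_ceil (1 / h))
          apply div_le_div_of_nonneg_right _ hh.le
          linarith
        exact Nat.floor_le_of_le h3
      omega
  have hone : 1 ≤ sphMax n θ' := by
    have h1 : IsSphCode n θ' {e} := by
      refine ⟨fun x hx => ?_, fun x hx y hy hxy => ?_⟩
      · rw [Finset.mem_singleton.1 hx, he]
      · exact absurd ((Finset.mem_singleton.1 hx).trans (Finset.mem_singleton.1 hy).symm) hxy
    simpa using le_sphMax hs' h1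
  have hfib : ∀ b ∈ Finset.range (K + 2), (P.filter fun x => f x = b).card ≤ sphMax n θ' := by
    intro b _
    rcases Nat.eq_zero_or_pos b with hb | hb
    · have h1 : (P.filter fun x => f x = b) ⊆ {e} := by
        intro x hx
        rw [Finset.mem_filter] at hx
        have h2 := hx.2
        rw [hf, hb] at h2
        simp only [] at h2
        split_ifs at h2 with hxe
        exact Finset.mem_singleton.2 hxe
      exact ((Finset.card_le_card h1).trans (by simp)).trans hone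
    · refine band_card (c := c) (q := q) (η := η) (h := h) (a := q + (b - 1 : ℕ) * h) (θ := θ)
        hn hc.symm hc1 hq hη0 hηc hh hsmall ?_ hcosθ' hs' (e := e) ?_ he ?_
      · have : 0 ≤ ((b - 1 : ℕ) : ℝ) * h := by positivity
        linarith
      · exact ⟨fun x hx => hP.1 x (Finset.mem_filter.1 hx).1, fun x hx y hy hxy =>
          hP.2 x (Finset.mem_filter.1 hx).1 y (Finset.mem_filter.1 hy).1 hxy⟩
      · intro x hx
        rw [Finset.mem_filter] at hx
        obtain ⟨hxP, hxf⟩ := hx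
        rw [hf] at hxf
        simp only [] at hxf
        split_ifs at hxf with hxe
        · omega
        · refine ⟨hxe, ?_, ?_⟩
          · have h1 : ⌊(⟪x, e⟫_ℝ - q) / h⌋₊ = b - 1 := by omega
            have h2 : 0 ≤ (⟪x, e⟫_ℝ - q) / h := div_nonneg (by linarith [hcap x hxP]) hh.le
            have h3 := Nat.floor_le h2
            rw [h1, le_div_iff₀ hh] at h3
            linarith
          · have h1 : ⌊(⟪x, e⟫_ℝ - q) / h⌋₊ = b - 1 := by omega
            have h3 := Nat.lt_floor_add_one ((⟪x, e⟫_ℝ - q) / h)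
            rw [h1, div_lt_iff₀ hh] at h3
            linarith
  have h := Finset.card_le_mul_card_image_of_maps_to hmaps (sphMax n θ') hfib
  rw [Finset.card_range] at h
  rw [mul_comm]
  exact h

end Pool.Agent.P8H61.PK
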