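import Pool.Agent.P8H41.PK.Stm

/-!
# Project PK: the weak law of large numbers for a standard Gaussian vector
-/

set_option autoImplicit false

open Filter Topology MeasureTheory ProbabilityTheory
open Pool.Agent.P8H41.PK

namespace Pool.Agent.P8H61.PK

theorem lln_bound {f : ℝ → ℝ} (hf : Measurable f) (hf2 : MemLp f 2 (gaussianReal 0 1)) {ε : ℝ}
    (hε : 0 < ε) {n : ℕ} (hn : 1 ≤ n) :
    (stdGaussian (E n)).real
      {x | ε * n < |∑ i, f (x i) - n * ∫ t, f t ∂(gaussianReal 0 1)|} ≤
      Var[f; gaussianReal 0 1] / ε ^ 2 / n := by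
  have hn' : (0 : ℝ) < n := by exact_mod_cast hn
  set m : ℝ := ∫ t, f t ∂(gaussianReal 0 1) with hm
  have hset : MeasurableSet {x : E n | ε * n < |∑ i, f (x i) - n * m|} := by
    refine measurableSet_lt measurable_const ?_
    refine continuous_abs.measurable.comp ?_
    refine Measurable.sub_const ?_ _
    refine Finset.measurable_sum _ fun i _ => hf.comp ?_
    fun_prop
  rw [← map_pi_eq_stdGaussian, map_measureReal_apply (by fun_prop) hset]
  set P : Measure (Fin n → ℝ) := Measure.pi (fun _ : Fin n => gaussianReal 0 1) with hP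
  set X : (Fin n → ℝ) → ℝ := ∑ i : Fin n, fun ω : Fin n → ℝ => f (ω i) with hXdef
  have hXi : ∀ i : Fin n, MemLp (fun ω : Fin n → ℝ => f (ω i)) 2 P := fun i =>
    hf2.comp_measurePreserving (measurePreserving_eval _ i)
  have hX : MemLp X 2 P := memLp_finsetSum' _ fun i _ => hXi i
  have hvar : Var[X; P] = n * Var[f; gaussianReal 0 1] := by
    have h := variance_sum_pi (μ := fun _ : Fin n => gaussianReal 0 1) (X := fun _ : Fin n => f)
      (fun _ => hf2)
    rw [hXdef, hP, h]
    simp
  have hmean : ∫ ω, X ω ∂P = n * m := by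
    have h1 : ∀ ω, X ω = ∑ i, f (ω i) := fun ω => by rw [hXdef, Finset.sum_apply]
    simp_rw [h1]
    rw [integral_finsetSum _ fun i _ => (hXi i).integrable (by norm_num)]
    have h2 : ∀ i : Fin n, ∫ ω, f (ω i) ∂P = m := by
      intro i
      have h3 := (measurePreserving_eval (fun _ : Fin n => gaussianReal 0 1) i)
      rw [hm, ← h3.map_eq, integral_map h3.measurable.aemeasurable]
      rw [h3.map_eq]
      exact hf.aestronglyMeasurable
    simp [h2]
  have h := meas_ge_le_variance_div_sq hX (c := ε * n) (by positivity)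
  rw [hmean, hvar] at h
  have hsub : (WithLp.toLp 2) ⁻¹' {x : E n | ε * n < |∑ i, f (x i) - n * m|} ⊆
      {ω : Fin n → ℝ | ε * n ≤ |X ω - n * m|} := by
    intro ω hω
    have h1 : X ω = ∑ i, f (ω i) := by rw [hXdef, Finset.sum_apply]
    change ε * n ≤ |X ω - n * m|
    rw [h1]
    exact le_of_lt hω
  have hle : P ((WithLp.toLp 2) ⁻¹' {x : E n | ε * n < |∑ i, f (x i) - n * m|}) ≤
      ENNReal.ofReal (n * Var[f; gaussianReal 0 1] / (ε * n) ^ 2) := (measure_mono hsub).trans h
  rw [measureReal_def]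
  refine (ENNReal.toReal_mono ENNReal.ofReal_ne_top hle).trans ?_
  rw [ENNReal.toReal_ofReal]
  · apply le_of_eq
    field_simp
  · have := variance_nonneg f (gaussianReal 0 1)
    positivity

theorem lln : S_LLN := by
  intro f hf hf2 ε hε
  have hlim : Tendsto (fun n : ℕ => Var[f; gaussianReal 0 1] / ε ^ 2 / (n : ℝ)) atTop (𝓝 0) :=
    tendsto_const_div_atTop_nhds_zero_nat _
  refine squeeze_zero' (Eventually.of_forall fun n => measureReal_nonneg) ?_ hlim
  filter_upwards [eventually_ge_atTop 1] with n hn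
  exact lln_bound hf hf2 hε hn

end Pool.Agent.P8H61.PK
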